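import Pool.Agent.H15.FFNat

set_option autoImplicit false
open Filter Topology

namespace Pool.Agent.Results.MP_974af6_an.EverySolutionConverges

/-- `v k t` is the density `v_k(t)` for `k ≥ 1` and `t ≥ 0` (`v 0` plays no role). The critical
forest fire equations: nonnegative densities, total mass one at every time, and the equation of
every `v_k` with `k ≥ 2` at every time `t > 0`. Nothing else is required: no equation and no
continuity for `v_1`, no condition on the initial densities. -/
structure IsSolution (v : ℕ → ℝ → ℝ) : Prop where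
  nonneg : ∀ k, 1 ≤ k → ∀ t : ℝ, 0 ≤ t → 0 ≤ v k t
  mass : ∀ t : ℝ, 0 ≤ t → HasSum (fun k : ℕ => v (k + 1) t) 1
  equation : ∀ k, 2 ≤ k → ∀ t : ℝ, 0 < t → HasDerivAt (v k)
    (-(k : ℝ) * v k t + (k : ℝ) / 2 * ∑ l ∈ Finset.Ico 1 k, v l t * v (k - l) t) t

/-- A time-independent solution. -/
def IsStationary (w : ℕ → ℝ) : Prop := IsSolution fun k _ => w k

/-- There is exactly one time-independent solution, it is `w k = C(2k, k) / ((2k - 1) 4 ^ k)`, and
EVERY solution of the critical forest fire equations, whatever its initial condition, converges to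
it as `t → ∞`, for every `k` and in `ℓ¹`. -/
theorem result :
    (∃ w, IsStationary w ∧ ∀ w', IsStationary w' → ∀ k, 1 ≤ k → w' k = w k) ∧
    (∀ w, IsStationary w → ∀ k, 1 ≤ k →
      w k = (Nat.centralBinom k : ℝ) / ((2 * (k : ℝ) - 1) * 4 ^ k)) ∧
    ∀ v w, IsSolution v → IsStationary w →
      (∀ k, 1 ≤ k → Tendsto (v k) atTop (𝓝 (w k))) ∧
      Tendsto (fun t => ∑' k : ℕ, |v (k + 1) t - w (k + 1)|) atTop (𝓝 0) := by
  have conv : ∀ v, IsSolution v → ∀ k, 1 ≤ k → Tendsto (v k) atTop (𝓝 (Pool.Agent.H15.FF.ca k)) := by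
    intro v hv k hk
    have h : Pool.Agent.H15.FF.Raw (fun k t => v k (t + 1)) :=
      { nonneg := fun k hk t ht => hv.nonneg k hk _ (by linarith)
        sum := fun t ht => hv.mass _ (by linarith)
        deriv := fun k hk t ht =>
          ((hv.equation k hk (t + 1) (by linarith)).comp_add_const t 1).hasDerivWithinAt }
    have h1 := (h.main k hk).comp (tendsto_atTop_add_const_right atTop (-1 : ℝ) tendsto_id)
    refine h1.congr fun t => ?_
    simp
  have stat : ∀ w, IsStationary w → ∀ k, 1 ≤ k → w k = Pool.Agent.H15.FF.ca k := by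
    intro w hw k hk
    exact tendsto_nhds_unique tendsto_const_nhds (conv _ hw k hk)
  have hca : IsStationary Pool.Agent.H15.FF.ca :=
    { nonneg := fun k hk t _ => (Pool.Agent.H15.FF.ca_pos hk).le
      mass := fun t _ => Pool.Agent.H15.FF.ca_hasSum
      equation := fun k hk t _ => by
        have e : -(k : ℝ) * Pool.Agent.H15.FF.ca k + (k : ℝ) / 2 *
            ∑ l ∈ Finset.Ico 1 k, Pool.Agent.H15.FF.ca l * Pool.Agent.H15.FF.ca (k - l) = 0 := by
          rw [Pool.Agent.H15.FF.ca_conv hk]; ring
        simp only [e]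
        exact hasDerivAt_const t (Pool.Agent.H15.FF.ca k) }
  refine ⟨⟨Pool.Agent.H15.FF.ca, hca, stat⟩, fun w hw k hk => stat w hw k hk, fun v w hv hw => ?_⟩
  refine ⟨fun k hk => ?_, ?_⟩
  · rw [stat w hw k hk]
    exact conv v hv k hk
  · apply Pool.Agent.H15.FF.scheffe (u := fun t k => v (k + 1) t) (w := fun k => w (k + 1))
    · filter_upwards [eventually_ge_atTop (0 : ℝ)] with t ht
      exact ⟨fun k => hv.nonneg _ (by omega) t ht, hv.mass t ht⟩
    · exact fun k => hw.nonneg (k + 1) (by omega) 0 le_rfl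
    · exact hw.mass 0 le_rfl
    · intro k
      rw [stat w hw (k + 1) (by omega)]
      exact conv v hv (k + 1) (by omega)

end Pool.Agent.Results.MP_974af6_an.EverySolutionConverges
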